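import Pool.Agent.Lib.MP_98022b_lb.RelComm

/-!
# MP_98022b_gt: groups acting on finite dimensional CAT(0) complexes

`FJHullT S` is the smallest class of groups which contains a given class `S` and the infinite cyclic
group and is closed under the operations under which the class of groups satisfying the
Farrell-Jones conjecture (in K-theory up to degree one, in L-theory in all degrees, with
coefficients and finite wreath products) is closed, including the transfer reducible groups of
Bartels and Lück.

Let `G` act by simplicial isometries on a complete CAT(0) space with the structure of a Euclidean
simplicial complex of finite dimension with finitely many shapes, and let `f : G → Q` be a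
homomorphism to a group in the class, for instance to the trivial group. The group `G` is in the
class if (1) the intersections of the stabilizers of the vertices with the preimages of the cyclic
subgroups of `Q` are in the class, (2) in each descending chain of a given length of intersections
of the kernel of `f` with the stabilizers of far finite sets of simplices two consecutive groups are
equal, or they are commensurable and the intersections of their commensurator with the preimages of
the cyclic subgroups of `Q` are in the class, and (3) for each such intersection `J` and each `t`
normalizing `J` the group generated by `J` and `t` is in the class. The complex may be locally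
infinite, and the action need be neither proper nor cocompact. In particular all groups which act
properly, with finite stabilizers of bounded order, on such a complex are in `FJHullT S` for every
`S`; for torsion-free groups this is every proper action.
-/

set_option autoImplicit false

open scoped Pointwise

namespace Pool.Agent.Results.MP_98022b_gt.CAT0Complexes

open Pool.Agent.FJ Pool.Agent.GLN Pool.Agent.TD Subgroup.Commensurable

/-- Let `X` be a nonempty complete CAT(0) space, let `K` be a structure of a Euclidean simplicial
complex of dimension at most `d` with finitely many edge lengths on `X`, let the group `G` act by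
simplicial isometries, let `f : G → Q` be a homomorphism to a group `Q` in `FJHullT S`, and let `k`,
`l` be natural numbers. For a set `T` of simplices (vertex sets of simplices) `fixingSubgroup G T`
is the group of the elements of `G` which map each simplex in `T` onto itself, and `J T` is its
intersection with the kernel of `f`; `T` is far if it contains two simplices such that all their
vertices have distance at least `k`. Suppose that the intersections of the stabilizers of the
vertices with the preimages of the cyclic subgroups of `Q` are in `FJHullT S`, that for each
increasing sequence `T 0 ⊆ T 1 ⊆ ⋯` of finite sets of simplices with `T 0` far there is an `i < l`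
such that `J (T i)` and `J (T (i + 1))` are equal, or they are commensurable and the intersections
of the commensurator of `J (T i)` with the preimages of the cyclic subgroups of `Q` are in
`FJHullT S`, and that for each far finite set `T` of simplices and each `t` in `G` which normalizes
`J T` the group generated by `J T` and `t` is in `FJHullT S`. Then `G` is in `FJHullT S`. -/
theorem result (S : ∀ (G : Type) [Group G], Prop) {G X V Q : Type} [Group G] [Group Q]
    [MetricSpace X] [CompleteSpace X] [Nonempty X] (hX : IsCAT0 X) (K : EComplex X V)
    (hK : K.lens.Finite) {d : ℕ} (hd : ∀ s ∈ K.faces, s.card ≤ d + 1) [MulAction G X]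
    [MulAction G V] (hG : IsSimplicial G K) (f : G →* Q) (hQ : FJHullT S Q) (k l : ℕ)
    (hv : ∀ (v : V) (q : Q),
      FJHullT S (MulAction.stabilizer G v ⊓ (Subgroup.zpowers q).comap f : Subgroup G))
    (hchain : ∀ T : ℕ → Set (Set V), (∀ i, (T i).Finite) → (∀ i, ∀ C ∈ T i, K.IsFace C) →
      (∀ i, T i ⊆ T (i + 1)) →
      (∃ C ∈ T 0, ∃ C' ∈ T 0, ∀ u ∈ C, ∀ v ∈ C', (k : ℝ) ≤ dist (K.pos u) (K.pos v)) →
      ∃ i < l, fixingSubgroup G (T i) ⊓ f.ker = fixingSubgroup G (T (i + 1)) ⊓ f.ker ∨
        Subgroup.Commensurable (fixingSubgroup G (T i) ⊓ f.ker)
          (fixingSubgroup G (T (i + 1)) ⊓ f.ker) ∧
        ∀ q : Q, FJHullT S (commensurator (fixingSubgroup G (T i) ⊓ f.ker) ⊓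
          (Subgroup.zpowers q).comap f : Subgroup G))
    (hnorm : ∀ T : Set (Set V), T.Finite → (∀ C ∈ T, K.IsFace C) →
      (∃ C ∈ T, ∃ C' ∈ T, ∀ u ∈ C, ∀ v ∈ C', (k : ℝ) ≤ dist (K.pos u) (K.pos v)) → ∀ t : G,
      (∀ j, j ∈ fixingSubgroup G T ⊓ f.ker ↔ t * j * t⁻¹ ∈ fixingSubgroup G T ⊓ f.ker) →
      FJHullT S ((fixingSubgroup G T ⊓ f.ker) ⊔ Subgroup.zpowers t : Subgroup G)) :
    FJHullT S G :=
  mem_of_complex_comm (isFJClassT_fjHullT S) hX hK hd hG f hQ k l hv hchain hnorm

end Pool.Agent.Results.MP_98022b_gt.CAT0Complexes
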