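import Mathlib
import Pool.Agent.Lib.PLX.SE

/-!
# The obstructions to excision at an edge of a tree live on lines

Waldhausen's Nil and Cappell's UNil of an edge of a tree with a group action are detected along the
geodesic lines of translates of the edge.  The definitions are in `Pool.Agent.Lib.PLX.SE`,
`Pool.Agent.Lib.PLS.ExG`, `Pool.Agent.Lib.KN.AlongDefs` and the files imported there.
-/

open MonoidAlgebra
open scoped LaurentPolynomial

namespace Pool.Agent.Results.MP_98022b_gt.ExcisionOnLines

open Pool.Agent.MIX Pool.Agent.UP25 Pool.Agent.KN Pool.Agent.PLX

universe u w

/-- **Over every commutative ring `A` with involution, the obstructions to excision live on lines:**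
the Nil matrices of an edge of a tree with an action of `G` are stably elementary over `A[G]` if
`A[H]` is regular coherent along every line of translates of the edge, and the UNil forms are stably
hyperbolic over `A[G]` if the vertex groups have no elements of order two, the groups along every
reversible line are torsion-free and virtually act on a locally finite tree with virtually poly-`ℤ`
stabilisers or virtually embed in a (poly-`ℤ`)-by-(surface group) group, and `A` is good if there is
a reversible line.  For finitely generated groups `H` of these kinds and good `A` the rings
`A[ℤ^n][H]` are regular coherent, and the rings `ℤ` and `ℤ[T;T⁻¹]` are good. -/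
theorem result :
    (∀ (A : Type u) [CommRing A] [StarRing A], ObstructionsOnLinesSE.{u, w} A) ∧
    (∀ (A : Type u) [CommRing A], GoodRing A → ∀ (H : Type u) [Group H], Group.FG H →
      IsVT H ∨ IsSE H → ∀ n : ℕ,
        RegCoh (MonoidAlgebra (MonoidAlgebra A (Multiplicative (Fin n → ℤ))) H)) ∧
    GoodRing ℤ ∧ GoodRing ℤ[T;T⁻¹] :=
  ⟨fun A _ _ => obstructionsSE A, fun _ _ hA _ _ hfg hH n => regCohSE hA hfg hH n, goodRing_int,
    goodRing_laurent⟩

end Pool.Agent.Results.MP_98022b_gt.ExcisionOnLines
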