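import Pool.Agent.Lib.MP_98022b_gln.MainT
import Pool.Agent.Lib.MP_98022b_gln.GeoTR
import Pool.Agent.Lib.MP_98022b_hn.Ext
import Pool.Agent.Lib.MP_98022b_h30.Glue

/-!
# MP_98022b_gt: linear groups over commutative rings and groups of automata

`FJHullT S` is the smallest class of groups which contains a given class `S` and the infinite cyclic
group and is closed under the operations under which the class of groups satisfying the
Farrell-Jones conjecture (in K-theory up to degree one, in L-theory in all degrees, with
coefficients and finite wreath products) is closed, including the transfer reducible groups of
Bartels and Lück. If `S` contains the solvable groups and the groups `GL_n(ℚ)`, it contains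
all groups which have a homomorphism, with a kernel which is
hyper-(locally nilpotent or locally finite), for example solvable or locally nilpotent, to the
product of a group in the class, the automorphism group of a finitely generated module over a
commutative ring and the group of the finite-state automorphisms of polynomial activity of a
regular rooted tree.

The new homotopy actions are the ones on products of spaces of norms of volume `0`
(`Pool.Agent.GLN.geoTR`). The groups of automata are treated in
`Pool.Agent.MP98022b.polyAut_mem`. The kernel is treated in `Pool.Agent.HN.mem_hyper`, with the
actions of HNN extensions of torsion-free nilpotent groups along isolated subgroups on their trees.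
-/

set_option autoImplicit false

namespace Pool.Agent.Results.MP_98022b_gt.LinearAutomata

open Pool.Agent.FJ Pool.Agent.GLN Pool.Agent.HN

/-- The class of the solvable groups and the groups `GL_n(ℚ)`. -/
inductive SolvOrGLQ : (G : Type) → [Group G] → Prop
  /-- solvable groups -/
  | solvable {G : Type} [Group G] (h : Group.IsSolvable G) : SolvOrGLQ G
  /-- the groups `GL_n(ℚ)` -/
  | glQ (n : ℕ) : SolvOrGLQ (GL (Fin n) ℚ)

/-- Let `S` be a class of groups which contains the solvable groups and the groups `GL_n(ℚ)`.
Let `M` be a finitely generated module over a commutative ring `R`, let `X` be a finite set and
let `H` be a group in `FJHullT S`, for example the trivial group.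
Every group `G` which has a homomorphism to the product of `H`, the group of the automorphisms of
`M` and the group of the finite-state automorphisms of polynomial activity of the tree of words
over `X` with a kernel which is hyper-(locally nilpotent or locally finite) is in
`FJHullT S`. -/
theorem result (S : (G : Type) → [Group G] → Prop) (hS : ∀ (G : Type) [Group G], SolvOrGLQ G → S G)
    (R M : Type) [CommRing R] [AddCommGroup M] [Module R M] [Module.Finite R M]
    (X : Type) [Finite X] (H : Type) [Group H] (hH : FJHullT S H) (G : Type) [Group G]
    (f : G →* H × (M ≃ₗ[R] M) × Pool.Agent.MP98022b.polyAut X) (hf : Hyper f.ker) :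
    FJHullT S G :=
  mem_hyper (isFJClassT_fjHullT S)
    (fun _ _ h => FJHullT.base (hS _ (SolvOrGLQ.solvable h))) f
    (FJHullT.prod hH
      (FJHullT.prod
        (mem_of_hom_T geoTR (isFJClassT_fjHullT S)
          (fun _ _ h => FJHullT.base (hS _ (SolvOrGLQ.solvable h)))
          (fun n => FJHullT.base (hS _ (SolvOrGLQ.glQ n)))
          (MonoidHom.id (M ≃ₗ[R] M)) (by
            rw [MonoidHom.ker_id]
            infer_instance))
        (Pool.Agent.MP98022b.polyAut_mem (isFJClassT_fjHullT S).toIsFJClass X))) hf

end Pool.Agent.Results.MP_98022b_gt.LinearAutomata
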