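import Pool.Agent.Lib.MP_98022b_or.General

/-!
# MP_98022b_gt: one-relator groups and one relator over a group

Let `FEC` be the smallest class of groups which contains all free groups and is closed under
extensions and under directed colimits (with arbitrary transition homomorphisms). If `L` is in
`FEC` and `r` is an element of `L * F(X)` which is not conjugate to an element of `L` and not a
proper power, then `L` is embedded in `(L * F(X))/⟨⟨r⟩⟩` and this group is in `FEC`. For the trivial
group `L` this says that every one-relator group whose relator is not a proper power is
in `FEC`.
-/

set_option autoImplicit false

namespace Pool.Agent.Results.MP_98022b_gt.OneRelatorGroups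

open Pool.Agent.OR

/-- Let `FEC` be the smallest class of groups which contains the free groups and is closed under
extensions and directed colimits. Let `L` be a group in `FEC` and `r` an element of the free
product of `L` and the free group on a set `X` which is not conjugate to an element of `L` and
not a proper power. Then `L` is embedded in the quotient of `L * F(X)` by the normal closure
of `r`, and this quotient is in `FEC`. -/
theorem result (L : Type) [Group L] (hL : FEC L) (X : Type)
    (r : Monoid.Coprod L (FreeGroup X))
    (h1 : ∀ l : L, ¬ IsConj r (Monoid.Coprod.inl l))
    (h2 : ∀ (u : Monoid.Coprod L (FreeGroup X)) (k : ℕ), 2 ≤ k → r ≠ u ^ k) :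
    Function.Injective ((QuotientGroup.mk' (Subgroup.normalClosure {r})).comp
      (Monoid.Coprod.inl : L →* Monoid.Coprod L (FreeGroup X))) ∧
    FEC (Monoid.Coprod L (FreeGroup X) ⧸ Subgroup.normalClosure {r}) :=
  one_relator_over hL X r h1 h2

end Pool.Agent.Results.MP_98022b_gt.OneRelatorGroups
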